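import Pool.Agent.Q256.UI.Stm

set_option autoImplicit false

/-! Job SYM of the project UI (helper256). -/

namespace Pool.Agent.Q290.UISYM

open Finset MvPolynomial
open Pool.Agent.Q256.UP (PBox finite_pbox)
open Pool.Agent.Q256.UI

theorem mem_pbox {d B : ℕ} {F : MvPolynomial (Fin 2) ℤ} :
    F ∈ PBox d B ↔ (∀ α, F.coeff α ≠ 0 → α.degree ≤ d) ∧ ∀ α, |F.coeff α| ≤ B := by
  constructor
  · rintro ⟨h1, h2⟩
    refine ⟨fun α hα => ?_, h2⟩
    have h3 := le_totalDegree (mem_support_iff.2 hα)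
    have h4 : (α.sum fun _ e => e) = α.degree := rfl
    omega
  · rintro ⟨h1, h2⟩
    refine ⟨?_, h2⟩
    refine Finset.sup_le fun α hα => ?_
    exact h1 α (mem_support_iff.1 hα)

/-- `(-1)^d F(-x, -y)`. -/
noncomputable def tw (d : ℕ) (F : MvPolynomial (Fin 2) ℤ) : MvPolynomial (Fin 2) ℤ :=
  ∑ α ∈ F.support, monomial α ((-1) ^ (d + α.degree) * F.coeff α)

theorem coeff_tw (d : ℕ) (F : MvPolynomial (Fin 2) ℤ) (α : Fin 2 →₀ ℕ) :
    (tw d F).coeff α = (-1) ^ (d + α.degree) * F.coeff α := by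
  unfold tw
  rw [coeff_sum]
  simp only [coeff_monomial]
  rw [Finset.sum_ite_eq']
  split_ifs with h
  · rfl
  · rw [notMem_support_iff.1 h, mul_zero]

theorem eval_tw (d : ℕ) (F : MvPolynomial (Fin 2) ℤ) (P : Fin 2 → ℤ) :
    eval P (tw d F) = (-1) ^ d * eval (fun i => -P i) F := by
  rw [eval_eq' (fun i => -P i) F]
  unfold tw
  rw [map_sum, Finset.mul_sum]
  refine Finset.sum_congr rfl fun α _ => ?_
  rw [eval_monomial, Finsupp.prod_fintype _ _ (fun i => pow_zero _)]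
  have h : ∀ i, (-P i) ^ α i = (-1) ^ α i * P i ^ α i := fun i => by rw [neg_pow]
  rw [Finset.prod_congr rfl (fun i _ => h i), Finset.prod_mul_distrib, Finset.prod_pow_eq_pow_sum]
  have h2 : ∑ i, α i = α.degree := by
    rw [Finsupp.degree_eq_sum]
  rw [h2, pow_add]
  ring

theorem tw_inj (d : ℕ) : Function.Injective (tw d) := by
  intro F G h
  ext α
  have h1 := congrArg (coeff α) h
  rw [coeff_tw, coeff_tw] at h1
  exact mul_left_cancel₀ (pow_ne_zero _ (by norm_num)) h1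

theorem tw_fam {d H : ℕ} {Φ F : MvPolynomial (Fin 2) ℤ} (hΦ : Φ.IsHomogeneous d)
    (hF : F ∈ Fam Φ d H) : tw d F ∈ Fam Φ d H := by
  obtain ⟨G, hG, rfl⟩ := hF
  rw [mem_pbox] at hG
  refine ⟨tw d G, mem_pbox.2 ⟨fun α hα => ?_, fun α => ?_⟩, ?_⟩
  · rw [coeff_tw] at hα
    exact hG.1 α (right_ne_zero_of_mul hα)
  · rw [coeff_tw, abs_mul, abs_pow, abs_neg, abs_one, one_pow, one_mul]
    exact hG.2 α
  · ext α
    rw [coeff_add, coeff_tw, coeff_tw, coeff_add, mul_add]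
    congr 1
    by_cases h : Φ.coeff α = 0
    · rw [h, mul_zero]
    · have h2 : α.degree = d := by
        have h3 := hΦ h
        rw [Finsupp.degree_eq_weight_one]
        exact h3
      rw [h2, ← two_mul, pow_mul, neg_one_sq, one_pow, one_mul]

/-- The exchange of the variables. -/
noncomputable def sw (F : MvPolynomial (Fin 2) ℤ) : MvPolynomial (Fin 2) ℤ :=
  rename (Equiv.swap (0 : Fin 2) 1) F

theorem sw_inj : Function.Injective sw := rename_injective _ (Equiv.injective _)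

theorem eval_sw (F : MvPolynomial (Fin 2) ℤ) (x y : ℤ) :
    eval ![y, x] (sw F) = eval ![x, y] F := by
  unfold sw
  rw [eval_rename]
  have h : (![y, x] : Fin 2 → ℤ) ∘ (Equiv.swap (0 : Fin 2) 1) = ![x, y] := by
    funext i
    fin_cases i
    · show (![y, x] : Fin 2 → ℤ) (Equiv.swap (0 : Fin 2) 1 0) = x
      rw [Equiv.swap_apply_left]; rfl
    · show (![y, x] : Fin 2 → ℤ) (Equiv.swap (0 : Fin 2) 1 1) = y
      rw [Equiv.swap_apply_right]; rfl
  rw [h]

theorem sw_pbox {d H : ℕ} {G : MvPolynomial (Fin 2) ℤ} (hG : G ∈ PBox d H) : sw G ∈ PBox d H := by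
  refine ⟨(totalDegree_rename_le _ _).trans hG.1, fun α => ?_⟩
  have h : α = Finsupp.mapDomain (Equiv.swap (0 : Fin 2) 1)
      (Finsupp.mapDomain (Equiv.swap (0 : Fin 2) 1) α) := by
    rw [← Finsupp.mapDomain_comp]
    have h2 : (Equiv.swap (0 : Fin 2) 1 : Fin 2 → Fin 2) ∘ (Equiv.swap (0 : Fin 2) 1) = id := by
      funext i
      exact (Equiv.swap (0 : Fin 2) 1).symm_apply_apply i
    rw [h2, Finsupp.mapDomain_id]
  unfold sw
  rw [h, coeff_rename_mapDomain _ (Equiv.injective _)]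
  exact hG.2 _

theorem sw_fam {d H : ℕ} {Φ F : MvPolynomial (Fin 2) ℤ} (hF : F ∈ Fam Φ d H) :
    sw F ∈ Fam (sw Φ) d H := by
  obtain ⟨G, hG, rfl⟩ := hF
  exact ⟨sw G, sw_pbox hG, map_add _ _ _⟩

theorem sw_lead {d : ℕ} {Φ : MvPolynomial (Fin 2) ℤ} (h : Lead d Φ) : Lead d (sw Φ) := by
  refine ⟨h.hom.rename_isHomogeneous, ?_⟩
  unfold sw
  rw [map_rename]
  exact (MulEquiv.irreducible_iff (renameEquiv ℚ (Equiv.swap (0 : Fin 2) 1))).2 h.irr

theorem fam_fin (Φ : MvPolynomial (Fin 2) ℤ) (d H : ℕ) : (Fam Φ d H).Finite := by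
  refine ((finite_pbox (d - 1) H).image (fun G => Φ + G)).subset ?_
  rintro F ⟨G, hG, rfl⟩
  exact ⟨G, hG, rfl⟩

theorem zr_fin (Φ : MvPolynomial (Fin 2) ℤ) (d H a b : ℕ) : (ZR Φ d H a b).Finite :=
  (fam_fin Φ d H).subset fun _ h => h.1

end Pool.Agent.Q290.UISYM

namespace Pool.Agent.Q290

open MvPolynomial Pool.Agent.Q290.UISYM Pool.Agent.Q256.UI

theorem sym : S_SYM := by
  intro d Φ _ hΦ
  refine ⟨sw Φ, sw_lead hΦ, fun H a b => ?_⟩
  set S : Set (MvPolynomial (Fin 2) ℤ) := {F | F ∈ Fam Φ d H ∧ ∃ x y : ℤ,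
    (a : ℤ) ≤ max |x| |y| ∧ max |x| |y| ≤ b ∧ eval ![x, y] F = 0} with hS
  rw [Nat.card_coe_set_eq, Nat.card_coe_set_eq, Nat.card_coe_set_eq]
  set Z1 := ZR Φ d H a b with hZ1
  set Z2 := ZR (sw Φ) d H a b with hZ2
  have hf : (Fam Φ d H).Finite := fam_fin Φ d H
  have hz1 : Z1.Finite := zr_fin _ _ _ _ _
  have hz2 : Z2.Finite := zr_fin _ _ _ _ _
  set S1 : Set (MvPolynomial (Fin 2) ℤ) := {F | F ∈ Fam Φ d H ∧ tw d F ∈ Z1} with hS1
  set S2 : Set (MvPolynomial (Fin 2) ℤ) := {F | F ∈ Fam Φ d H ∧ sw F ∈ Z2} with hS2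
  set S3 : Set (MvPolynomial (Fin 2) ℤ) := {F | F ∈ Fam Φ d H ∧ tw d (sw F) ∈ Z2} with hS3
  have c1 : S1.ncard ≤ Z1.ncard :=
    Set.ncard_le_ncard_of_injOn (tw d) (fun F hF => hF.2) (tw_inj d).injOn hz1
  have c2 : S2.ncard ≤ Z2.ncard :=
    Set.ncard_le_ncard_of_injOn sw (fun F hF => hF.2) sw_inj.injOn hz2
  have c3 : S3.ncard ≤ Z2.ncard :=
    Set.ncard_le_ncard_of_injOn (fun F => tw d (sw F)) (fun F hF => hF.2)
      ((tw_inj d).comp sw_inj).injOn hz2
  have hneg : ∀ x y : ℤ, (fun i => -(![-x, -y] : Fin 2 → ℤ) i) = ![x, y] := by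
    intro x y
    funext i
    fin_cases i
    · show - -x = x
      exact neg_neg x
    · show - -y = y
      exact neg_neg y
  have hsub : S ⊆ ((Z1 ∪ S1) ∪ (S2 ∪ S3)) := by
    rintro F ⟨hF, x, y, h1, h2, h3⟩
    rcases le_total |x| |y| with h | h
    · rw [max_eq_right h] at h1 h2
      right
      rcases le_total 0 y with hy | hy
      · left
        rw [abs_of_nonneg hy] at h1 h2 h
        exact ⟨hF, sw_fam hF, y, x, h1, h2, h, by rw [eval_sw]; exact h3⟩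
      · right
        rw [abs_of_nonpos hy] at h1 h2 h
        refine ⟨hF, tw_fam (sw_lead hΦ).hom (sw_fam hF), -y, -x, h1, h2,
          by rw [abs_neg]; exact h, ?_⟩
        rw [eval_tw, hneg, eval_sw, h3, mul_zero]
    · rw [max_eq_left h] at h1 h2
      left
      rcases le_total 0 x with hx | hx
      · left
        rw [abs_of_nonneg hx] at h1 h2 h
        exact ⟨hF, x, y, h1, h2, h, h3⟩
      · right
        rw [abs_of_nonpos hx] at h1 h2 h
        refine ⟨hF, tw_fam hΦ.hom hF, -x, -y, h1, h2, by rw [abs_neg]; exact h, ?_⟩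
        rw [eval_tw, hneg, h3, mul_zero]
  have hfin : ((Z1 ∪ S1) ∪ (S2 ∪ S3)).Finite :=
    (hz1.union (hf.subset fun _ h => h.1)).union
      ((hf.subset fun _ h => h.1).union (hf.subset fun _ h => h.1))
  have e1 := Set.ncard_le_ncard hsub hfin
  have e2 := Set.ncard_union_le (Z1 ∪ S1) (S2 ∪ S3)
  have e3 := Set.ncard_union_le Z1 S1
  have e4 := Set.ncard_union_le S2 S3
  omega

end Pool.Agent.Q290
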