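import Pool.Agent.Q256.UI.Stm

set_option autoImplicit false

/-! Job TAL of the project UI (helper256). -/

namespace Pool.Agent.Q290

open MvPolynomial Pool.Agent.Q256.UI
open Pool.Agent.Q256.UP (PBox finite_pbox)

theorem tal : S_DYA → S_SML → S_LRG → S_SYM → S_TAL := by
  intro hDYA hSML hLRG hSYM d Φ hd hΦ
  have hff : ∀ H, (Fam Φ d H).Finite := by
    intro H
    refine ((finite_pbox (d - 1) H).image (fun G => Φ + G)).subset ?_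
    rintro F ⟨G, hG, rfl⟩
    exact ⟨G, hG, rfl⟩
  obtain ⟨Φ', hΦ', hsym⟩ := hSYM d Φ (by omega) hΦ
  obtain ⟨K1, hK1⟩ := hDYA d Φ hd hΦ
  obtain ⟨K2, hK2⟩ := hDYA d Φ' hd hΦ'
  obtain ⟨K3, e, C3, hC3, hK3⟩ := hLRG d Φ hd hΦ
  set K : ℕ := max K1 (max K2 K3) with hK
  obtain ⟨C1, hC1, h1⟩ := hK1 K e (le_max_left _ _)
  obtain ⟨C2, hC2, h2⟩ := hK2 K e ((le_max_left _ _).trans (le_max_right _ _))
  obtain ⟨C0, hC0, h0⟩ := hSML d K Φ (by omega)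
  refine ⟨C0 + 2 * C1 + 2 * C2 + C3, by linarith, fun H R hH => ?_⟩
  have g0 := h0 H R hH
  have g1 := h1 H hH
  have g2 := h2 H hH
  have g3 := hK3 K H ((le_max_right _ _).trans (le_max_right _ _)) hH
  have gs := hsym H (K * H) ((K * H) ^ e)
  rw [Nat.card_coe_set_eq] at g0 g1 g2 g3 gs ⊢
  rw [Nat.card_coe_set_eq, Nat.card_coe_set_eq] at gs
  set S : Set (MvPolynomial (Fin 2) ℤ) := {F | F ∈ Fam Φ d H ∧ ∃ x y : ℤ,
    (R : ℤ) < max |x| |y| ∧ eval ![x, y] F = 0} with hS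
  set S1 : Set (MvPolynomial (Fin 2) ℤ) := {F | F ∈ Fam Φ d H ∧ ∃ x y : ℤ,
    (R : ℤ) < max |x| |y| ∧ max |x| |y| ≤ K * H ∧ eval ![x, y] F = 0} with hS1
  set S2 : Set (MvPolynomial (Fin 2) ℤ) := {F | F ∈ Fam Φ d H ∧ ∃ x y : ℤ,
    ((K * H : ℕ) : ℤ) ≤ max |x| |y| ∧ max |x| |y| ≤ (((K * H) ^ e : ℕ) : ℤ) ∧
    eval ![x, y] F = 0} with hS2
  set S3 : Set (MvPolynomial (Fin 2) ℤ) := {F | F ∈ Fam Φ d H ∧ ∃ x y : ℤ,
    (((K * H) ^ e : ℕ) : ℤ) < max |x| |y| ∧ eval ![x, y] F = 0} with hS3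
  have hsub : S ⊆ S1 ∪ S2 ∪ S3 := by
    rintro F ⟨hF, x, y, hx, h⟩
    rcases le_or_gt (max |x| |y|) ((K : ℤ) * H) with c | c
    · exact Or.inl (Or.inl ⟨hF, x, y, hx, c, h⟩)
    · rcases le_or_gt (max |x| |y|) (((K * H) ^ e : ℕ) : ℤ) with c2 | c2
      · refine Or.inl (Or.inr ⟨hF, x, y, ?_, c2, h⟩)
        push_cast
        exact c.le
      · exact Or.inr ⟨hF, x, y, c2, h⟩
  have hfin : (S1 ∪ S2 ∪ S3).Finite :=
    (((hff H).subset fun _ h => h.1).union ((hff H).subset fun _ h => h.1)).union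
      ((hff H).subset fun _ h => h.1)
  have e1 := Set.ncard_le_ncard hsub hfin
  have e2 := Set.ncard_union_le (S1 ∪ S2) S3
  have e3 := Set.ncard_union_le S1 S2
  have e4 : S.ncard ≤ S1.ncard + (2 * (ZR Φ d H (K * H) ((K * H) ^ e)).ncard +
      2 * (ZR Φ' d H (K * H) ((K * H) ^ e)).ncard) + S3.ncard := by omega
  have e5 : (S.ncard : ℝ) ≤ S1.ncard + (2 * ((ZR Φ d H (K * H) ((K * H) ^ e)).ncard : ℝ) +
      2 * ((ZR Φ' d H (K * H) ((K * H) ^ e)).ncard : ℝ)) + S3.ncard := by exact_mod_cast e4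
  have hHr : (1 : ℝ) ≤ H := by exact_mod_cast hH
  have hHp : (0 : ℝ) < H := by linarith
  have p1 : (H : ℝ) ^ ((NN d : ℝ) - 7 / 6) =
      (H : ℝ) ^ ((NN d : ℝ) - 1) * (H : ℝ) ^ (-(1 / 6 : ℝ)) := by
    rw [← Real.rpow_add hHp]
    congr 1
    ring
  have p2 : (H : ℝ) ^ ((NN d : ℝ) - 2) ≤ (H : ℝ) ^ ((NN d : ℝ) - 7 / 6) :=
    Real.rpow_le_rpow_of_exponent_le hHr (by linarith)
  set X : ℝ := (H : ℝ) ^ ((NN d : ℝ) - 1) with hX
  set Y : ℝ := (H : ℝ) ^ (-(1 / 6 : ℝ)) with hY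
  have hXp : 0 < X := Real.rpow_pos_of_pos hHp _
  have hYp : 0 < Y := Real.rpow_pos_of_pos hHp _
  have hXY : 0 < X * Y := mul_pos hXp hYp
  set Z : ℝ := 1 / ((R : ℝ) + 1) ^ (d - 3) with hZ
  have hZp : 0 < Z := by positivity
  have hXZ : 0 < X * Z := mul_pos hXp hZp
  rw [p1] at g1 g2 p2
  have g3' : (S3.ncard : ℝ) ≤ C3 * (X * Y) :=
    g3.trans (mul_le_mul_of_nonneg_left p2 (by linarith))
  have g0' : (S1.ncard : ℝ) ≤ C0 * (X * Z) := by rw [← mul_assoc]; exact g0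
  have q1 : 0 ≤ (2 * C1 + 2 * C2 + C3) * (X * Z) := by
    have : 0 ≤ 2 * C1 + 2 * C2 + C3 := by linarith
    positivity
  have q2 : 0 ≤ C0 * (X * Y) := by
    have : 0 ≤ C0 := by linarith
    positivity
  nlinarith [e5, g0', g1, g2, g3', q1, q2]

end Pool.Agent.Q290
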