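import Pool.Agent.Q256.UI.Stm

set_option autoImplicit false

/-! Job UNQ of the project UI (helper256). -/

namespace Pool.Agent.Q290

open MvPolynomial Pool.Agent.Q256.UI
open Pool.Agent.Q256.UP (PBox finite_pbox)

theorem unq : S_TAL → S_PAR → S_UNQ := by
  intro hTAL hPAR d Φ hd hΦ
  have hff : ∀ H, (Fam Φ d H).Finite := by
    intro H
    refine ((finite_pbox (d - 1) H).image (fun G => Φ + G)).subset ?_
    rintro F ⟨G, hG, rfl⟩
    exact ⟨G, hG, rfl⟩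
  obtain ⟨C, hC, hT⟩ := hTAL d Φ hd hΦ
  refine ⟨2 * C + 81 * 7 ^ NN d, by
    have : (0 : ℝ) < 81 * 7 ^ NN d := by positivity
    linarith, fun H hH => ?_⟩
  have hHr : (1 : ℝ) ≤ H := by exact_mod_cast hH
  have hHp : (0 : ℝ) < H := by linarith
  set x : ℝ := (H : ℝ) ^ (1 / 24 : ℝ) with hx
  have hx1 : 1 ≤ x := Real.one_le_rpow hHr (by norm_num)
  set R : ℕ := ⌊x⌋₊ with hR
  have hR1 : (R : ℝ) ≤ x := Nat.floor_le (by linarith)
  have hR2 : x < R + 1 := Nat.lt_floor_add_one x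
  have x4 : x ^ 4 = (H : ℝ) ^ (1 / 6 : ℝ) := by
    rw [hx, ← Real.rpow_natCast, ← Real.rpow_mul hHp.le]
    norm_num
  have g := hT H R hH
  set S : Set (MvPolynomial (Fin 2) ℤ) :=
    {F | F ∈ Fam Φ d H ∧ {p : ℤ × ℤ | eval ![p.1, p.2] F = 0}.Nontrivial} with hS
  set A : Set (MvPolynomial (Fin 2) ℤ) := {F | F ∈ Fam Φ d H ∧ ∃ x y : ℤ,
    (R : ℤ) < max |x| |y| ∧ eval ![x, y] F = 0} with hA
  let B : (ℤ × ℤ) × (ℤ × ℤ) → Set (MvPolynomial (Fin 2) ℤ) := fun w =>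
    {F | F ∈ Fam Φ d H ∧ eval ![w.1.1, w.1.2] F = 0 ∧ eval ![w.2.1, w.2.2] F = 0}
  let I : Finset ℤ := Finset.Icc (-(R : ℤ)) R
  let W : Finset ((ℤ × ℤ) × (ℤ × ℤ)) := ((I ×ˢ I) ×ˢ (I ×ˢ I)).filter (fun w => w.1 ≠ w.2)
  have hI : I.card = 2 * R + 1 := by
    show (Finset.Icc (-(R : ℤ)) R).card = 2 * R + 1
    rw [Int.card_Icc]
    omega
  have hW : W.card ≤ (2 * R + 1) ^ 4 := by
    refine (Finset.card_filter_le _ _).trans ?_
    rw [Finset.card_product, Finset.card_product, hI]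
    apply le_of_eq
    ring
  have hsub : S ⊆ A ∪ ⋃ w ∈ W, B w := by
    rintro F ⟨hF, p, hp, q, hq, hpq⟩
    by_cases h1 : (R : ℤ) < max |p.1| |p.2|
    · exact Or.inl ⟨hF, p.1, p.2, h1, hp⟩
    by_cases h2 : (R : ℤ) < max |q.1| |q.2|
    · exact Or.inl ⟨hF, q.1, q.2, h2, hq⟩
    right
    push Not at h1 h2
    have a1 := (le_max_left _ _).trans h1
    have a2 := (le_max_right _ _).trans h1
    have a3 := (le_max_left _ _).trans h2
    have a4 := (le_max_right _ _).trans h2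
    rw [abs_le] at a1 a2 a3 a4
    refine Set.mem_iUnion₂.2 ⟨(p, q), ?_, hF, hp, hq⟩
    refine Finset.mem_filter.2 ⟨Finset.mem_product.2 ⟨Finset.mem_product.2 ⟨?_, ?_⟩,
      Finset.mem_product.2 ⟨?_, ?_⟩⟩, hpq⟩
    · exact Finset.mem_Icc.2 a1
    · exact Finset.mem_Icc.2 a2
    · exact Finset.mem_Icc.2 a3
    · exact Finset.mem_Icc.2 a4
  have hfA : A.Finite := (hff H).subset fun _ h => h.1
  have hfU : (⋃ w ∈ W, B w).Finite := by
    refine (hff H).subset ?_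
    intro F hF
    obtain ⟨w, _, h⟩ := Set.mem_iUnion₂.1 hF
    exact h.1
  have hb : ∀ w ∈ W, ((B w).ncard : ℝ) ≤ 7 ^ NN d * ((H : ℝ) ^ ((NN d : ℝ) - 2)) := by
    intro w hw
    have hne : (![w.1.1, w.1.2] : Fin 2 → ℤ) ≠ ![w.2.1, w.2.2] := by
      intro h
      apply (Finset.mem_filter.1 hw).2
      have e0 := congrFun h 0
      have e1 := congrFun h 1
      exact Prod.ext e0 e1
    have h := hPAR d H Φ _ _ (by omega) hne
    rw [Nat.card_coe_set_eq] at h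
    have h' : ((B w).ncard : ℝ) * (((H : ℝ) + 1) * ((H : ℝ) + 1)) ≤
        (2 * (3 * (H : ℝ)) + 1) ^ NN d := by exact_mod_cast h
    have k1 : (2 * (3 * (H : ℝ)) + 1) ^ NN d ≤ (7 * (H : ℝ)) ^ NN d :=
      pow_le_pow_left₀ (by positivity) (by linarith) _
    have k2 : ((B w).ncard : ℝ) * (H : ℝ) ^ 2 ≤
        ((B w).ncard : ℝ) * (((H : ℝ) + 1) * ((H : ℝ) + 1)) :=
      mul_le_mul_of_nonneg_left (by nlinarith) (by positivity)
    have k3 : (H : ℝ) ^ ((NN d : ℝ) - 2) = (H : ℝ) ^ NN d / (H : ℝ) ^ 2 := by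
      rw [Real.rpow_sub hHp, Real.rpow_natCast]
      norm_num
    rw [k3, ← mul_div_assoc, le_div_iff₀ (by positivity), ← mul_pow]
    linarith
  have e1 := Set.ncard_le_ncard hsub (hfA.union hfU)
  have e2 := Set.ncard_union_le A (⋃ w ∈ W, B w)
  have e3 : (⋃ w ∈ W, B w).ncard ≤ ∑ w ∈ W, (B w).ncard := Finset.set_ncard_biUnion_le W B
  have e4 : (S.ncard : ℝ) ≤ A.ncard + ∑ w ∈ W, ((B w).ncard : ℝ) := by
    have := (e1.trans e2).trans (Nat.add_le_add_left e3 _)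
    exact_mod_cast this
  have e5 : ∑ w ∈ W, ((B w).ncard : ℝ) ≤
      (2 * (R : ℝ) + 1) ^ 4 * (7 ^ NN d * ((H : ℝ) ^ ((NN d : ℝ) - 2))) := by
    refine (Finset.sum_le_sum hb).trans ?_
    rw [Finset.sum_const, nsmul_eq_mul]
    refine mul_le_mul_of_nonneg_right ?_ (by positivity)
    exact_mod_cast hW
  have e6 : (2 * (R : ℝ) + 1) ^ 4 ≤ 81 * (H : ℝ) ^ (1 / 6 : ℝ) := by
    rw [← x4]
    have : (2 * (R : ℝ) + 1) ^ 4 ≤ (3 * x) ^ 4 :=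
      pow_le_pow_left₀ (by positivity) (by linarith) _
    calc _ ≤ _ := this
      _ = 81 * x ^ 4 := by ring
  have e7 : (H : ℝ) ^ (1 / 6 : ℝ) * (H : ℝ) ^ ((NN d : ℝ) - 2) ≤
      (H : ℝ) ^ ((NN d : ℝ) - 1) * (H : ℝ) ^ (-(1 / 6 : ℝ)) := by
    rw [← Real.rpow_add hHp, ← Real.rpow_add hHp]
    exact Real.rpow_le_rpow_of_exponent_le hHr (by linarith)
  have e8 : 1 / ((R : ℝ) + 1) ^ (d - 3) ≤ (H : ℝ) ^ (-(1 / 6 : ℝ)) := by
    rw [Real.rpow_neg hHp.le, ← one_div]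
    refine one_div_le_one_div_of_le (Real.rpow_pos_of_pos hHp _) ?_
    rw [← x4]
    calc x ^ 4 ≤ ((R : ℝ) + 1) ^ 4 := pow_le_pow_left₀ (by linarith) hR2.le _
      _ ≤ ((R : ℝ) + 1) ^ (d - 3) := pow_le_pow_right₀ (by linarith) (by omega)
  rw [Nat.card_coe_set_eq] at g ⊢
  set X : ℝ := (H : ℝ) ^ ((NN d : ℝ) - 1) with hX
  set Y : ℝ := (H : ℝ) ^ (-(1 / 6 : ℝ)) with hY
  have hXp : 0 < X := Real.rpow_pos_of_pos hHp _
  have hYp : 0 < Y := Real.rpow_pos_of_pos hHp _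
  have f1 : (A.ncard : ℝ) ≤ 2 * C * (X * Y) := by
    refine g.trans ?_
    have : C * X * (1 / ((R : ℝ) + 1) ^ (d - 3) + Y) ≤ C * X * (Y + Y) :=
      mul_le_mul_of_nonneg_left (by linarith) (by positivity)
    calc _ ≤ _ := this
      _ = 2 * C * (X * Y) := by ring
  have f2 : ∑ w ∈ W, ((B w).ncard : ℝ) ≤ 81 * 7 ^ NN d * (X * Y) := by
    refine e5.trans ?_
    calc (2 * (R : ℝ) + 1) ^ 4 * (7 ^ NN d * ((H : ℝ) ^ ((NN d : ℝ) - 2)))
        ≤ 81 * (H : ℝ) ^ (1 / 6 : ℝ) * (7 ^ NN d * ((H : ℝ) ^ ((NN d : ℝ) - 2))) :=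
          mul_le_mul_of_nonneg_right e6 (by positivity)
      _ = 81 * 7 ^ NN d * ((H : ℝ) ^ (1 / 6 : ℝ) * (H : ℝ) ^ ((NN d : ℝ) - 2)) := by ring
      _ ≤ 81 * 7 ^ NN d * (X * Y) := mul_le_mul_of_nonneg_left e7 (by positivity)
  calc (S.ncard : ℝ) ≤ A.ncard + ∑ w ∈ W, ((B w).ncard : ℝ) := e4
    _ ≤ 2 * C * (X * Y) + 81 * 7 ^ NN d * (X * Y) := add_le_add f1 f2
    _ = (2 * C + 81 * 7 ^ NN d) * X * Y := by ring

end Pool.Agent.Q290
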